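import Pool.Agent.Q2.PIM.Stm

set_option autoImplicit false

noncomputable section

namespace Pool.Agent.Q203.PIM

open Pool.Agent.Q2.PIM
open Pool.Agent.Helper700.Red

attribute [local instance 100] LieRing.ofAssociativeRing

section

variable {k : Type} [Field k] [CharP k 2]

/-- matrices -/
abbrev MM (k : Type) := Matrix (Fin 6) (Fin 6) k

/-- endomorphisms -/
abbrev EE (k : Type) [Field k] := Module.End k (Matrix (Fin 6) (Fin 6) k)

theorem two_zero {V : Type} [AddCommGroup V] [Module k V] (v : V) : v + v = 0 := by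
  rw [← two_smul k v, CharTwo.two_eq_zero, zero_smul]

theorem neg_self {V : Type} [AddCommGroup V] [Module k V] (v : V) : -v = v := by
  rw [neg_eq_iff_add_eq_zero, two_zero (k := k)]

/-- bracket in an algebra of characteristic two -/
theorem br_eq {A : Type} [Ring A] [Algebra k A] (x y : A) : ⁅x, y⁆ = x * y + y * x := by
  rw [Ring.lie_def, sub_eq_add_neg, neg_self (k := k) (y * x)]

theorem br_sq {A : Type} [Ring A] [Algebra k A] (x y : A) : ⁅x ^ 2, y⁆ = ⁅x, ⁅x, y⁆⁆ := by
  rw [br_eq (k := k), br_eq (k := k) x ⁅x, y⁆, br_eq (k := k) x y]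
  have h := two_zero (k := k) (x * y * x)
  rw [pow_two]
  calc x * x * y + y * (x * x) = x * x * y + y * (x * x) + (x * y * x + x * y * x) := by
        rw [h, add_zero]
    _ = _ := by noncomm_ring

theorem ad_sq (A : MM k) : (LieAlgebra.ad k (MM k) A : EE k) ^ 2 = LieAlgebra.ad k (MM k) (A ^ 2) := by
  ext1 B
  rw [pow_two, Module.End.mul_apply, LieAlgebra.ad_apply, LieAlgebra.ad_apply, LieAlgebra.ad_apply,
    br_sq (k := k)]

/-- the square of an element of `pgl 6` -/
def sqm (x : pgl 6 k) : pgl 6 k := ⟨(x : EE k) ^ 2, by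
  obtain ⟨A, hA⟩ := x.2
  exact ⟨A ^ 2, by
    have : (x : EE k) = LieAlgebra.ad k (MM k) A := hA.symm
    rw [this, ad_sq]
    rfl⟩⟩

theorem sqm_coe (x : pgl 6 k) : ((sqm x : pgl 6 k) : EE k) = (x : EE k) ^ 2 := rfl

/-- the restricted structure -/
def PP2 : PMap 2 k (pgl 6 k) where
  toFun := sqm
  ad_toFun x := by
    ext1 y
    apply Subtype.ext
    rw [pow_two, Module.End.mul_apply, LieAlgebra.ad_apply, LieAlgebra.ad_apply,
      LieAlgebra.ad_apply, LieSubalgebra.coe_bracket, LieSubalgebra.coe_bracket,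
      LieSubalgebra.coe_bracket, sqm_coe]
    exact br_sq (k := k) (x : EE k) (y : EE k)
  toFun_smul a x := by
    apply Subtype.ext
    change (a • (x : EE k)) ^ 2 = a ^ 2 • (x : EE k) ^ 2
    rw [smul_pow]
  toFun_add x y := by
    apply Subtype.ext
    have h1 : Finset.Icc 1 (2 - 1) = {1} := rfl
    rw [h1, Finset.sum_singleton]
    have h2 : jacobson 2 k 1 x y = ⁅y, x⁆ := by
      unfold jacobson
      simp
    rw [h2]
    change ((x : EE k) + (y : EE k)) ^ 2 = (x : EE k) ^ 2 + (y : EE k) ^ 2 + ⁅(y : EE k), (x : EE k)⁆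
    rw [br_eq (k := k)]
    noncomm_ring

/-- the elements -/
def ee (i j : Fin 6) : pgl 6 k := ⟨LieAlgebra.ad k (MM k) (Matrix.single i j 1), ⟨_, rfl⟩⟩

theorem ee_coe (i j : Fin 6) : ((ee i j : pgl 6 k) : EE k) =
    LieAlgebra.ad k (MM k) (Matrix.single i j 1) := rfl

theorem lie_single (i j r s : Fin 6) : ⁅(Matrix.single i j 1 : MM k), (Matrix.single r s 1 : MM k)⁆
    = (if j = r then Matrix.single i s 1 else 0) + (if s = i then Matrix.single r j 1 else 0) := by
  rw [br_eq (k := k)]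
  congr 1
  · split_ifs with h
    · subst h; simp
    · exact Matrix.single_mul_single_of_ne (h := h) ..
  · split_ifs with h
    · subst h; simp
    · exact Matrix.single_mul_single_of_ne (h := h) ..

/-- the map to `pgl 6` -/
def toP : MM k →ₗ[k] pgl 6 k where
  toFun A := ⟨LieAlgebra.ad k (MM k) A, ⟨_, rfl⟩⟩
  map_add' A B := by
    apply Subtype.ext
    exact (LieAlgebra.ad k (MM k)).map_add A B
  map_smul' c A := by
    apply Subtype.ext
    exact (LieAlgebra.ad k (MM k)).map_smul c A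

theorem toP_coe (A : MM k) : ((toP A : pgl 6 k) : EE k) = LieAlgebra.ad k (MM k) A := rfl

theorem ee_toP (i j : Fin 6) : (ee i j : pgl 6 k) = toP (Matrix.single i j 1) := rfl

theorem toP_zero {A : MM k} (h : toP A = 0) (B : MM k) : A * B = B * A := by
  have h1 : ((toP A : pgl 6 k) : EE k) B = 0 := by rw [h]; rfl
  rw [toP_coe, LieAlgebra.ad_apply, Ring.lie_def, sub_eq_zero] at h1
  exact h1

theorem toP_surj (x : pgl 6 k) : ∃ A : MM k, toP A = x := by
  obtain ⟨A, hA⟩ := x.2
  exact ⟨A, Subtype.ext hA⟩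

theorem ee_sum : ∑ i, (ee i i : pgl 6 k) = 0 := by
  have h1 : ∑ i, (ee i i : pgl 6 k) = toP (∑ i, Matrix.single i i 1) := by
    rw [map_sum]; rfl
  rw [h1, Matrix.sum_single_one]
  apply Subtype.ext
  rw [toP_coe]
  ext1 B
  rw [LieAlgebra.ad_apply, Ring.lie_def]
  simp

theorem central_zero {M : MM k} (h : ∀ B : MM k, M * B = B * M) (h5 : M 5 5 = 0) : M = 0 := by
  ext i j
  by_cases hij : i = j
  · subst hij
    have h1 := congrFun (congrFun (h (Matrix.single i 5 1)) i) 5
    simp [Matrix.mul_apply, Matrix.single_apply] at h1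
    simp [h1, h5]
  · have h1 := congrFun (congrFun (h (Matrix.single j j 1)) i) j
    simp [Matrix.mul_apply, Matrix.single_apply] at h1
    have h2 : ¬ j = i := fun h => hij h.symm
    simp [h2] at h1
    simp [h1]

theorem ee_lin : LinearIndependent k fun p : {p : Fin 6 × Fin 6 // p ≠ (5, 5)} =>
    (ee p.1.1 p.1.2 : pgl 6 k) := by
  rw [Fintype.linearIndependent_iff]
  intro g hg
  set M : MM k := ∑ p : {p : Fin 6 × Fin 6 // p ≠ (5, 5)}, g p • Matrix.single p.1.1 p.1.2 1 with hM
  have h1 : toP M = 0 := by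
    rw [hM, map_sum, ← hg]
    refine Finset.sum_congr rfl fun p _ => ?_
    rw [map_smul, ee_toP]
  have hent : ∀ i j, M i j = if h : (i, j) ≠ ((5 : Fin 6), (5 : Fin 6)) then g ⟨(i, j), h⟩ else 0 := by
    intro i j
    rw [hM, Matrix.sum_apply]
    split_ifs with h
    · rw [Finset.sum_eq_single ⟨(i, j), h⟩]
      · simp
      · intro b _ hb
        have : ¬ (b.1.1 = i ∧ b.1.2 = j) := by
          rintro ⟨h1, h2⟩
          exact hb (Subtype.ext (Prod.ext h1 h2))
        simp [Matrix.single_apply, this]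
      · simp
    · refine Finset.sum_eq_zero fun b _ => ?_
      have : ¬ (b.1.1 = i ∧ b.1.2 = j) := by
        rintro ⟨h1, h2⟩
        apply b.2
        push Not at h
        exact (Prod.ext h1 h2 : b.1 = (i, j)).trans h
      simp [Matrix.single_apply, this]
  have h2 : M = 0 := central_zero (toP_zero h1) (by rw [hent]; simp)
  intro p
  have h3 := hent p.1.1 p.1.2
  rw [h2] at h3
  rw [dif_pos p.2] at h3
  exact h3.symm

theorem ee_span : Submodule.span k (Set.range fun p : {p : Fin 6 × Fin 6 // p ≠ (5, 5)} =>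
    (ee p.1.1 p.1.2 : pgl 6 k)) = ⊤ := by
  rw [eq_top_iff]
  intro x _
  obtain ⟨A, rfl⟩ := toP_surj x
  set S := Submodule.span k (Set.range fun p : {p : Fin 6 × Fin 6 // p ≠ (5, 5)} =>
    (ee p.1.1 p.1.2 : pgl 6 k)) with hS
  have hm : ∀ i j, (i, j) ≠ ((5 : Fin 6), (5 : Fin 6)) → (ee i j : pgl 6 k) ∈ S := fun i j h =>
    Submodule.subset_span ⟨⟨(i, j), h⟩, rfl⟩
  have h5 : (ee 5 5 : pgl 6 k) ∈ S := by
    have h1 := ee_sum (k := k)
    rw [Fin.sum_univ_castSucc] at h1
    have h2 : (ee 5 5 : pgl 6 k) = -∑ i : Fin 5, ee i.castSucc i.castSucc :=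
      (neg_eq_of_add_eq_zero_right h1).symm
    rw [h2]
    refine S.neg_mem (S.sum_mem fun i _ => hm _ _ ?_)
    intro h
    have h3 := congrArg (fun q : Fin 6 × Fin 6 => (q.1 : ℕ)) h
    simp at h3
    have := i.2
    omega
  have hall : ∀ i j, (ee i j : pgl 6 k) ∈ S := by
    intro i j
    by_cases h : (i, j) = ((5 : Fin 6), (5 : Fin 6))
    · have h1 : i = 5 := congrArg Prod.fst h
      have h2 : j = 5 := congrArg Prod.snd h
      rw [h1, h2]
      exact h5
    · exact hm i j h
  rw [Matrix.matrix_eq_sum_single A, map_sum]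
  refine S.sum_mem fun i _ => ?_
  rw [map_sum]
  refine S.sum_mem fun j _ => ?_
  have : Matrix.single i j (A i j) = A i j • Matrix.single i j (1 : k) := by
    rw [Matrix.smul_single, smul_eq_mul, mul_one]
  rw [this, map_smul, ← ee_toP]
  exact S.smul_mem _ (hall i j)

end

theorem t_PGL : S_PGL := by
  intro k _ _
  refine ⟨PP2, ee, fun x => rfl, fun i j => rfl, ?_, ?_, ee_sum, ee_lin, ee_span⟩
  · intro i j r s
    apply Subtype.ext
    have h1 : ((⁅(ee i j : pgl 6 k), ee r s⁆ : pgl 6 k) : EE k) =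
        LieAlgebra.ad k (MM k) ⁅(Matrix.single i j 1 : MM k), Matrix.single r s 1⁆ :=
      ((LieAlgebra.ad k (MM k)).map_lie _ _).symm
    rw [h1, lie_single]
    split_ifs <;> simp [ee]
  · intro i j
    apply Subtype.ext
    change (LieAlgebra.ad k (MM k) (Matrix.single i j 1) : EE k) ^ 2 = _
    rw [ad_sq, pow_two]
    split_ifs with h
    · subst h
      simp [ee]
    · rw [Matrix.single_mul_single_of_ne (h := fun h' => h h'.symm)]
      simp

end Pool.Agent.Q203.PIM
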