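import Pool.Agent.Q2.PIM.Stm

set_option autoImplicit false

noncomputable section

namespace Pool.Agent.Q203.PIM

open Pool.Agent.Q2.PIM

theorem t_FIT : S_FIT := by
  intro k A _ _ _ c hc M _ _ _ _ _ _ _
  let f : M →ₗ[A] M :=
    { toFun := fun m => c • m
      map_add' := fun x y => smul_add c x y
      map_smul' := fun a x => by
        rw [RingHom.id_apply, ← mul_smul, ← mul_smul, hc] }
  have hN : IsNoetherian A M := isNoetherian_of_tower k inferInstance
  have hAr : IsArtinian A M := isArtinian_of_tower k inferInstance
  have hf := f.eventually_isCompl_ker_pow_range_pow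
  obtain ⟨n, hn, hn0⟩ := (hf.and (Filter.eventually_gt_atTop 0)).exists
  have hpow : ∀ (j : ℕ) (m : M), (f ^ j) m = c ^ j • m := by
    intro j
    induction j with
    | zero => intro m; simp
    | succ j ih =>
      intro m
      rw [pow_succ', pow_succ', mul_smul]
      change f ((f ^ j) m) = _
      rw [ih]
      rfl
  have hsurj : Function.Surjective (Submodule.projectionOnto _ _ hn.symm) :=
    Submodule.projectionOnto_surjective hn.symm
  refine ⟨n, LinearMap.ker (f ^ n), LinearMap.range (f ^ n), hn0, hn, ?_, ?_, ?_, ?_⟩
  · refine Module.Projective.of_split (LinearMap.range (f ^ n)).subtype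
      (Submodule.projectionOnto _ _ hn.symm) ?_
    ext x
    simp [Submodule.projectionOnto_apply_left]
  · exact Module.Finite.of_surjective _ hsurj
  · intro m
    constructor
    · rintro ⟨m', rfl⟩
      exact ⟨m', hpow n m'⟩
    · rintro ⟨m', rfl⟩
      exact ⟨m', hpow n m'⟩
  · intro m
    rw [LinearMap.mem_ker, hpow]

theorem ks_aux (k A : Type) [Field k] [Ring A] [Algebra k A] [Module.Finite k A] (n : ℕ)
    (h : ∀ d ∈ pimDims k A, n ∣ d) : ∀ (N : ℕ) (M : Type) [AddCommGroup M] [Module A M]
    [Module.Finite A M] [Module.Projective A M], kdim k A M ≤ N → n ∣ kdim k A M := by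
  intro N
  induction N with
  | zero =>
    intro M _ _ _ _ hM
    have : kdim k A M = 0 := by omega
    rw [this]
    exact dvd_zero n
  | succ N ih =>
    intro M _ _ _ _ hM
    by_cases h0 : kdim k A M = 0
    · rw [h0]; exact dvd_zero n
    let _ : Module k M := Module.compHom M (algebraMap k A)
    have : IsScalarTower k A M := ⟨fun r a x => by
      change (r • a) • x = (algebraMap k A r) • (a • x)
      rw [Algebra.smul_def, mul_smul]⟩
    have : Module.Finite k M := Module.Finite.trans A M
    have hkd : kdim k A M = Module.finrank k M := rfl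
    have hnt : Nontrivial M := by
      rw [hkd] at h0
      exact Module.nontrivial_of_finrank_pos (R := k) (Nat.pos_of_ne_zero h0)
    by_cases hi : Indec A M
    · exact h _ ⟨M, _, _, inferInstance, inferInstance, hi, rfl⟩
    · have : ∃ N₁ N₂ : Submodule A M, IsCompl N₁ N₂ ∧ N₁ ≠ ⊥ ∧ N₂ ≠ ⊥ := by
        by_contra hcon
        push Not at hcon
        refine hi ⟨hnt, fun N₁ N₂ hc => ?_⟩
        by_cases h1 : N₁ = ⊥
        · exact Or.inl h1
        · exact Or.inr (hcon N₁ N₂ hc h1)
      obtain ⟨N₁, N₂, hc, h1, h2⟩ := this
      have key : ∀ (P Q : Submodule A M) (hPQ : IsCompl P Q), Module.Projective A P ∧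
          Module.Finite A P := by
        intro P Q hPQ
        constructor
        · refine Module.Projective.of_split P.subtype (Submodule.projectionOnto P Q hPQ) ?_
          ext x
          simp [Submodule.projectionOnto_apply_left]
        · exact Module.Finite.of_surjective _ (Submodule.projectionOnto_surjective hPQ)
      obtain ⟨hp1, hf1⟩ := key N₁ N₂ hc
      obtain ⟨hp2, hf2⟩ := key N₂ N₁ hc.symm
      have fink : ∀ P : Submodule A M, Module.Finite k P := by
        intro P
        have : Module.Finite k (P.restrictScalars k) := inferInstance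
        exact this
      have g1 := fink N₁
      have g2 := fink N₂
      have hsum : kdim k A M = kdim k A N₁ + kdim k A N₂ := by
        have e := (Submodule.prodEquivOfIsCompl N₁ N₂ hc).symm.restrictScalars k
        rw [hkd, e.finrank_eq, Module.finrank_prod]
        rfl
      have pos : ∀ P : Submodule A M, P ≠ ⊥ → 0 < kdim k A P := by
        intro P hP
        have : Nontrivial P := Submodule.nontrivial_iff_ne_bot.2 hP
        have h3 := fink P
        exact Module.finrank_pos (R := k) (M := P)
      have p1 := pos N₁ h1
      have p2 := pos N₂ h2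
      rw [hsum]
      exact dvd_add (ih N₁ (by omega)) (ih N₂ (by omega))

theorem t_KS : S_KS := by
  intro k A _ _ _ _ n h M _ _ _ _
  exact ks_aux k A n h _ M le_rfl

end Pool.Agent.Q203.PIM
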